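import Mathlib

set_option autoImplicit false
set_option linter.unusedSectionVars false

/-!
# Rational elements of the group algebra and Galois conjugate characters
-/

namespace Pool.Agent.U68.BC

open Polynomial

variable {G : Type} [AddCommGroup G] {n : ℕ} [NeZero n]

/-- the eigenvalue of `Γ = ∑ Γ g [g]` on the part of the character `χ`: the sum of the
`Γ g * exp (2 π i χ (g) / n)` -/
noncomputable def eigenvalue (Γ : G →₀ ℚ) (χ : G →+ ZMod n) : ℂ :=
  ∑ g ∈ Γ.support, (Γ g : ℂ) * Complex.exp (2 * Real.pi * Complex.I * ((χ g).val / n))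

/-- the multiple of a character by a residue -/
def smulChar (u : ZMod n) (χ : G →+ ZMod n) : G →+ ZMod n := (AddMonoidHom.mulLeft u).comp χ

omit [NeZero n] in
theorem smulChar_apply (u : ZMod n) (χ : G →+ ZMod n) (g : G) : smulChar u χ g = u * χ g := rfl

theorem exp_eq_pow (k : ℕ) : Complex.exp (2 * Real.pi * Complex.I * ((k : ℂ) / n)) =
    Complex.exp (2 * Real.pi * Complex.I / n) ^ k := by
  rw [← Complex.exp_nat_mul]
  congr 1
  ring

theorem eigenvalue_eq_aeval (Γ : G →₀ ℚ) (χ : G →+ ZMod n) (u : (ZMod n)ˣ) :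
    eigenvalue Γ (smulChar (u : ZMod n) χ) =
      aeval (Complex.exp (2 * Real.pi * Complex.I / n) ^ (u : ZMod n).val)
        (∑ g ∈ Γ.support, C (Γ g) * X ^ (χ g).val : ℚ[X]) := by
  have hprim := Complex.isPrimitiveRoot_exp n (NeZero.ne n)
  unfold eigenvalue
  rw [map_sum]
  apply Finset.sum_congr rfl
  intro g _
  rw [map_mul, map_pow, aeval_C, aeval_X, exp_eq_pow, ← pow_mul, smulChar_apply]
  congr 1
  rw [ZMod.val_mul]
  conv_rhs => rw [← Nat.mod_add_div ((u : ZMod n).val * (χ g).val) n, pow_add, pow_mul,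
    hprim.pow_eq_one, one_pow, mul_one]

/-- the eigenvalues of a rational element on conjugate characters are both zero or both nonzero -/
theorem eigenvalue_ne_zero {Γ : G →₀ ℚ} {χ : G →+ ZMod n} (h : eigenvalue Γ χ ≠ 0) (u : (ZMod n)ˣ) :
    eigenvalue Γ (smulChar (u : ZMod n) χ) ≠ 0 := by
  have hprim := Complex.isPrimitiveRoot_exp n (NeZero.ne n)
  have hn : 0 < n := Nat.pos_of_ne_zero (NeZero.ne n)
  intro h0
  apply h
  have h1 : smulChar ((1 : (ZMod n)ˣ) : ZMod n) χ = χ := by
    ext g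
    rw [smulChar_apply, Units.val_one, one_mul]
  rw [← h1, eigenvalue_eq_aeval]
  rw [eigenvalue_eq_aeval] at h0
  have p1 := hprim.pow_of_coprime (u : ZMod n).val (ZMod.val_coe_unit_coprime u)
  have p2 := hprim.pow_of_coprime ((1 : (ZMod n)ˣ) : ZMod n).val (ZMod.val_coe_unit_coprime 1)
  have m1 := cyclotomic_eq_minpoly_rat p1 hn
  have m2 := cyclotomic_eq_minpoly_rat p2 hn
  rw [← minpoly.dvd_iff, ← m1] at h0
  rw [← minpoly.dvd_iff, ← m2]
  exact h0

end Pool.Agent.U68.BC
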