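import Pool.Agent.U15.DP.Num
import Pool.Agent.N197.Pln.Main
import Pool.Agent.N197.Pln.QMain

set_option autoImplicit false
set_option linter.unusedSectionVars false

/-!
# The geometric part: pencils with three branch points, plane covers, product type

`case_fibre` and `case_plane` are copied from `MP_7ebcb6_ag.TwoPointBlowupCovers` (helper15).
-/

namespace Pool.Agent.U68.BC

open Pool.Agent.N197.Pln Pool.Agent.U15.DP MvPolynomial

/-- the form of degree `b` in three variables which becomes `f` if the third variable is `1` -/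
noncomputable def homog (f : MvPolynomial (Fin 2) ℂ) (b : ℕ) : MvPolynomial (Fin 3) ℂ :=
  ∑ m ∈ f.support, C (coeff m f) * (X 0 ^ m 0 * X 1 ^ m 1 * X 2 ^ (b - m 0 - m 1))

theorem aeval_homog {Ω : Type} [Field Ω] [Algebra ℂ Ω] (f : MvPolynomial (Fin 2) ℂ) (b : ℕ)
    (x y : Ω) : aeval ![x, y, 1] (homog f b) = aeval ![x, y] f := by
  unfold homog
  rw [map_sum, aeval_def (f := ![x, y]), eval₂_eq']
  apply Finset.sum_congr rfl
  intro m _
  simp [Fin.prod_univ_two]

theorem isPlaneCurve_homog {f : MvPolynomial (Fin 2) ℂ} (h0 : f ≠ 0) (hpos : 0 < f.totalDegree) :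
    IsPlaneCurve (homog f f.totalDegree) f.totalDegree := by
  refine ⟨hpos, ?_, ?_⟩
  · unfold homog
    apply IsHomogeneous.sum
    intro m hm
    have h1 : m 0 + m 1 ≤ f.totalDegree := by
      have := le_totalDegree hm
      rw [Finsupp.sum_fintype _ _ (fun _ => rfl), Fin.sum_univ_two] at this
      exact this
    have h2 : 0 + (1 * m 0 + 1 * m 1 + 1 * (f.totalDegree - m 0 - m 1)) = f.totalDegree := by omega
    have h3 : (C (coeff m f) * (X 0 ^ m 0 * X 1 ^ m 1 * X 2 ^ (f.totalDegree - m 0 - m 1)) :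
        MvPolynomial (Fin 3) ℂ).IsHomogeneous
          (0 + (1 * m 0 + 1 * m 1 + 1 * (f.totalDegree - m 0 - m 1))) :=
      (isHomogeneous_C _ _).mul ((((isHomogeneous_X _ _).pow _).mul
        ((isHomogeneous_X _ _).pow _)).mul ((isHomogeneous_X _ _).pow _))
    rwa [h2] at h3
  · intro h
    obtain ⟨Ω, _, _, _, s, t, hst⟩ := exists_field
    have h1 := aeval_homog f f.totalDegree s t
    rw [h, map_zero] at h1
    exact h0 (hst (by rw [← h1, map_zero]))

section cases

variable {ι : Type} [Fintype ι] {n : ℕ} [NeZero n] {f : ι → MvPolynomial (Fin 2) ℂ}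
  {c : ι → ZMod n}

/-- at most three branch points on the fibres `y = const` -/
theorem case_fibre {d : ι → ℕ} (hd : ∀ i, (f i).degreeOf 0 ≤ d i) (h : brn d c ≤ 3) :
    AffineDominatedByCurves n f c := by
  classical
  have key := fibre_three (ι := Option ι) (n := n) (f := fun o => o.elim 1 f)
    (d := fun o => o.elim 1 d) (a := fun o => o.elim (-∑ i, d i • c i) c) (by
      intro o
      cases o with
      | none => simp
      | some i => simpa using hd i) (by
      rw [Fintype.sum_option]
      simp) (by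
      refine le_trans (le_of_eq ?_) h
      unfold brn
      rw [Finset.sum_filter, Finset.sum_filter, Fintype.sum_option, add_comm]
      congr 1
      by_cases h0 : ∑ i, d i • c i = 0
      · rw [if_pos h0, if_neg]
        simpa using h0
      · rw [if_neg h0, if_pos]
        · rfl
        · simpa using h0)
  obtain ⟨Ω, _, _, K₁, K₂, hK, x, hx, y, hy, z, hz, hind, hval⟩ := key
  refine ⟨Ω, inferInstance, inferInstance, K₁, K₂, hK, x, hx, y, hy, z, hz, hind, ?_⟩
  rw [hval, Fintype.prod_option]
  simp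

/-- the case of a plane cover -/
theorem case_plane (hf : ∀ i, f i ≠ 0)
    (h1 : L (fun i => (f i).totalDegree) c 1 ≤ 2) (h2 : L (fun i => (f i).totalDegree) c (-1) ≤ 2) :
    AffineDominatedByCurves n f c := by
  classical
  have hn : n ≠ 0 := NeZero.ne n
  have hn' : (0 : ℚ) < n := Nat.cast_pos.mpr (Nat.pos_of_ne_zero hn)
  set F : Option ι → MvPolynomial (Fin 3) ℂ := fun o => o.elim (X 2)
    (fun i => if (f i).totalDegree = 0 then X 2 else homog (f i) (f i).totalDegree) with hF
  set d : Option ι → ℕ := fun o => o.elim 1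
    (fun i => if (f i).totalDegree = 0 then 1 else (f i).totalDegree) with hd
  set e : Option ι → ZMod n := fun o => o.elim (-∑ i, (f i).totalDegree • c i)
    (fun i => if (f i).totalDegree = 0 then 0 else c i) with he
  have hX2 : IsPlaneCurve (X 2 : MvPolynomial (Fin 3) ℂ) 1 :=
    ⟨one_pos, isHomogeneous_X _ _, X_ne_zero _⟩
  have hcurve : ∀ o, IsPlaneCurve (F o) (d o) := by
    intro o
    cases o with
    | none => exact hX2
    | some i =>
      simp only [hF, hd, Option.elim_some]
      split_ifs with h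
      · exact hX2
      · exact isPlaneCurve_homog (hf i) (Nat.pos_of_ne_zero h)
  have hsum : ∑ o, d o • e o = 0 := by
    rw [Fintype.sum_option]
    simp only [hd, he, Option.elim_none, Option.elim_some, one_smul]
    rw [neg_add_eq_zero]
    apply Finset.sum_congr rfl
    intro i _
    split_ifs with h
    · rw [h]; simp
    · rfl
  have hint : ∀ e' : Option ι → ZMod n, ∑ o, d o • e' o = 0 → lineDegree n d e' < 3 →
      lineDegree n d e' ≤ 2 := by
    intro e' h3 h4
    obtain ⟨m, hm⟩ := sum_val h3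
    have h5 : lineDegree n d e' = m := by
      unfold lineDegree
      rw [← Finset.sum_div, div_eq_iff hn'.ne']
      have : ((∑ o, d o * (e' o).val : ℕ) : ℚ) = ((n * m : ℕ) : ℚ) := by rw [hm]
      push_cast at this
      rw [this]
      ring
    rw [h5] at h4 ⊢
    have : m < 3 := by exact_mod_cast h4
    have : m ≤ 2 := by omega
    exact_mod_cast this
  have hL : lineDegree n d e < 3 := by
    unfold lineDegree
    rw [Fintype.sum_option]
    have e1 : ∑ i, ((d (some i) : ℕ) : ℚ) * ((e (some i)).val : ℚ) / (n : ℚ) =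
        L (fun i => (f i).totalDegree) c 1 := by
      unfold L fr
      apply Finset.sum_congr rfl
      intro i _
      simp only [hd, he, Option.elim_some, one_mul, mul_div_assoc]
      split_ifs with h
      · rw [h]; simp
      · rfl
    have e2 : ((d none : ℕ) : ℚ) * ((e none).val : ℚ) / (n : ℚ) < 1 := by
      have := fr_lt_one (e none)
      unfold fr at this
      simpa [hd] using this
    rw [e1]
    linarith
  have hL' : lineDegree n d (fun o => -(e o)) < 3 := by
    unfold lineDegree
    rw [Fintype.sum_option]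
    have e1 : ∑ i, ((d (some i) : ℕ) : ℚ) * ((-(e (some i))).val : ℚ) / (n : ℚ) =
        L (fun i => (f i).totalDegree) c (-1) := by
      unfold L fr
      apply Finset.sum_congr rfl
      intro i _
      simp only [hd, he, Option.elim_some, neg_mul, one_mul, mul_div_assoc]
      split_ifs with h
      · rw [h]; simp
      · rfl
    have e2 : ((d none : ℕ) : ℚ) * ((-(e none)).val : ℚ) / (n : ℚ) < 1 := by
      have := fr_lt_one (-(e none))
      unfold fr at this
      simpa [hd] using this
    rw [e1]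
    linarith
  have hsum' : ∑ o, d o • -(e o) = 0 := by
    simp only [smul_neg, Finset.sum_neg_distrib, hsum, neg_zero]
  have hdom : DominatedByCurves n F e :=
    dominated hcurve hsum (hint _ hsum hL) (hint _ hsum' hL')
  obtain ⟨Ω, _, _, K₁, K₂, hK, x, hx, y, hy, z, hz, hind, hval⟩ := hdom
  -- the constant factors
  obtain ⟨ρ, hρ⟩ := IsAlgClosed.exists_pow_nat_eq
    (∏ i, (if (f i).totalDegree = 0 then coeff 0 (f i) else 1) ^ (c i).val : ℂ)
    (Nat.pos_of_ne_zero hn)
  refine ⟨Ω, inferInstance, inferInstance, K₁, K₂, hK, x, hx, y, hy,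
    z * algebraMap ℂ Ω ρ, mul_mem hz ((K₁ ⊔ K₂).algebraMap_mem ρ), hind, ?_⟩
  rw [mul_pow, hval, ← map_pow, hρ, Fintype.prod_option, map_prod]
  have e0 : aeval ![x, y, 1] (F none) ^ (e none).val = 1 := by
    simp [hF]
  rw [e0, one_mul, ← Finset.prod_mul_distrib]
  apply Finset.prod_congr rfl
  intro i _
  simp only [hF, he, Option.elim_some]
  split_ifs with h
  · rw [ZMod.val_zero, pow_zero, one_mul, map_pow]
    congr 1
    have h3 : f i = C (coeff 0 (f i)) := totalDegree_eq_zero_iff_eq_C.mp h
    conv_rhs => rw [h3]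
    rw [aeval_C]
  · rw [aeval_homog, one_pow, map_one, mul_one]

end cases


section product

variable {ι : Type} [Fintype ι] {n : ℕ} [NeZero n] {f : ι → MvPolynomial (Fin 2) ℂ}
  {c : ι → ZMod n}

theorem aeval_mem_left {Ω : Type} [Field Ω] [Algebra ℂ Ω] (s t : Ω) {f : MvPolynomial (Fin 2) ℂ}
    (h : f.degreeOf 1 = 0) : aeval ![s, t] f ∈ cl s := by
  rw [aeval_def, eval₂_eq']
  apply sum_mem
  intro m hm
  have h1 : m 1 = 0 := by
    have := (degreeOf_le_iff.mp h.le) m hm
    omega
  rw [Fin.prod_univ_two, h1, pow_zero, mul_one]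
  exact mul_mem ((cl s).algebraMap_mem _) (pow_mem (self_mem_cl s) _)

theorem aeval_mem_right {Ω : Type} [Field Ω] [Algebra ℂ Ω] (s t : Ω) {f : MvPolynomial (Fin 2) ℂ}
    (h : f.degreeOf 0 = 0) : aeval ![s, t] f ∈ cl t := by
  rw [aeval_def, eval₂_eq']
  apply sum_mem
  intro m hm
  have h1 : m 0 = 0 := by
    have := (degreeOf_le_iff.mp h.le) m hm
    omega
  rw [Fin.prod_univ_two, h1, pow_zero, one_mul]
  exact mul_mem ((cl t).algebraMap_mem _) (pow_mem (self_mem_cl t) _)

/-- all branch curves are fibres of the two projections -/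
theorem case_product (h : ∀ i, c i ≠ 0 → (f i).degreeOf 0 = 0 ∨ (f i).degreeOf 1 = 0) :
    AffineDominatedByCurves n f c := by
  classical
  obtain ⟨Ω, _, _, _, s, t, hst⟩ := exists_field
  have hn : n ≠ 0 := NeZero.ne n
  have hs : s ∈ cl s ⊔ cl t := (le_sup_left : cl s ≤ cl s ⊔ cl t) (self_mem_cl s)
  have ht : t ∈ cl s ⊔ cl t := (le_sup_right : cl t ≤ cl s ⊔ cl t) (self_mem_cl t)
  have hex : ∀ i, ∃ w ∈ cl s ⊔ cl t, w ^ n = aeval ![s, t] (f i) ^ (c i).val := by
    intro i
    by_cases hc : c i = 0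
    · refine ⟨1, one_mem _, ?_⟩
      rw [hc, ZMod.val_zero, pow_zero, one_pow]
    · rcases h i hc with h1 | h1
      · obtain ⟨w, hw, hwn⟩ := root_mem_cl (pow_mem (aeval_mem_right s t h1) (c i).val) hn
        exact ⟨w, (le_sup_right : cl t ≤ cl s ⊔ cl t) hw, hwn⟩
      · obtain ⟨w, hw, hwn⟩ := root_mem_cl (pow_mem (aeval_mem_left s t h1) (c i).val) hn
        exact ⟨w, (le_sup_left : cl s ≤ cl s ⊔ cl t) hw, hwn⟩
  choose w hw hwn using hex
  obtain ⟨K₁, K₂, hK, h1, h2, h3⟩ := exists_curves hst hs ht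
    (prod_mem (fun i (_ : i ∈ Finset.univ) => hw i))
  refine ⟨Ω, inferInstance, inferInstance, K₁, K₂, hK, s, h1, t, h2, ∏ i, w i, h3, hst, ?_⟩
  rw [← Finset.prod_pow]
  exact Finset.prod_congr rfl fun i _ => hwn i

end product

end Pool.Agent.U68.BC
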