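import Pool.Agent.U15.DP.Num

set_option autoImplicit false
set_option linter.unusedSectionVars false
set_option linter.unusedVariables false

/-!
# The numerical part when only the units modulo `n` are used

The numerical theorem of `Pool.Agent.U15.DP.Num` (helper15) uses the alternative for all multiples of a
character. Here it is assumed only for the multiples by units, that is, for the Galois conjugates. Then
there are two more cases: no mixed curves, and one explicit case of order six.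
-/

namespace Pool.Agent.U68.BC

open Finset Pool.Agent.U15.DP

section star

variable {n : ℕ} [NeZero n]

theorem type_of' {c v₁ v₂ h₁ h₂ m : ZMod n} (hc : m * c ≠ 0) (hv₁ : m * v₁ ≠ 0) (hv₂ : m * v₂ ≠ 0)
    (hh₁ : m * h₁ ≠ 0) (hh₂ : m * h₂ ≠ 0)
    (H1 : 1 < fr (m * c) + fr (m * v₁) + fr (m * v₂) →
      1 < fr (m * c) + fr (m * h₁) + fr (m * h₂) →
      fr (m * c) + fr (m * v₁) + fr (m * v₂) + fr (m * h₁) + fr (m * h₂) ≤ 2)
    (H2 : 1 < fr (-m * c) + fr (-m * v₁) + fr (-m * v₂) →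
      1 < fr (-m * c) + fr (-m * h₁) + fr (-m * h₂) →
      fr (-m * c) + fr (-m * v₁) + fr (-m * v₂) + fr (-m * h₁) + fr (-m * h₂) ≤ 2) :
    T c v₁ v₂ h₁ h₂ m ≤ 1 := by
  simp only [neg_mul] at H2
  have e0 := fr_neg_of_ne hc
  have e1 := fr_neg_of_ne hv₁
  have e2 := fr_neg_of_ne hv₂
  have e3 := fr_neg_of_ne hh₁
  have e4 := fr_neg_of_ne hh₂
  have a0 := fr_pos hc
  have a1 := fr_pos hv₁
  have a2 := fr_pos hv₂
  have a3 := fr_pos hh₁
  have a4 := fr_pos hh₂
  rw [e0, e1, e2, e3, e4] at H2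
  by_cases hX : fr (m * c) + fr (m * v₁) + fr (m * v₂) ≤ 1
  · have hY : 2 ≤ fr (m * c) + fr (m * h₁) + fr (m * h₂) := by
      by_contra hcon
      push Not at hcon
      have := H2 (by linarith) (by linarith)
      linarith
    refine T_le hc hX ?_
    rw [e0, e3, e4]
    linarith
  · push Not at hX
    have hY : fr (m * c) + fr (m * h₁) + fr (m * h₂) ≤ 1 := by
      by_contra hcon
      push Not at hcon
      have h3 := H1 hX hcon
      by_cases h4 : 2 ≤ fr (m * c) + fr (m * v₁) + fr (m * v₂)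
      · linarith
      · by_cases h5 : 2 ≤ fr (m * c) + fr (m * h₁) + fr (m * h₂)
        · linarith
        · push Not at h4 h5
          have := H2 (by linarith) (by linarith)
          linarith
    have hX2 : 2 ≤ fr (m * c) + fr (m * v₁) + fr (m * v₂) := by
      by_contra hcon
      push Not at hcon
      have := H2 (by linarith) (by linarith)
      linarith
    rw [← T_neg]
    have hc' : -m * c ≠ 0 := by
      rw [neg_mul]
      exact neg_ne_zero.mpr hc
    refine T_le hc' ?_ ?_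
    · simp only [neg_mul]
      rw [e0, e1, e2]
      linarith
    · simp only [neg_mul, neg_neg]
      exact hY

theorem unit_mul_ne (u : (ZMod n)ˣ) {z : ZMod n} (hz : z ≠ 0) : (u : ZMod n) * z ≠ 0 := by
  intro h
  apply hz
  have := congrArg (fun x => ((u⁻¹ : (ZMod n)ˣ) : ZMod n) * x) h
  simpa using this

/-- five residues, with the alternative for the units only -/
theorem star_units {c v₁ v₂ h₁ h₂ : ZMod n} (hc : c ≠ 0) (hv₁ : v₁ ≠ 0) (hv₂ : v₂ ≠ 0)
    (hh₁ : h₁ ≠ 0) (hh₂ : h₂ ≠ 0)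
    (hx : fr c + fr v₁ + fr v₂ < 1) (hy : fr (-c) + fr (-h₁) + fr (-h₂) < 1)
    (hcon : ∀ u : (ZMod n)ˣ, 1 < fr ((u : ZMod n) * c) + fr ((u : ZMod n) * v₁) +
        fr ((u : ZMod n) * v₂) →
      1 < fr ((u : ZMod n) * c) + fr ((u : ZMod n) * h₁) + fr ((u : ZMod n) * h₂) →
      fr ((u : ZMod n) * c) + fr ((u : ZMod n) * v₁) + fr ((u : ZMod n) * v₂) +
        fr ((u : ZMod n) * h₁) + fr ((u : ZMod n) * h₂) ≤ 2) :
    fr c = 1 / 2 ∧ fr v₁ = 1 / 6 ∧ fr h₁ = 5 / 6 := by
  have a0 := fr_pos hc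
  have a0' := fr_pos (neg_ne_zero.mpr hc)
  have a1 := fr_pos hv₁
  have a2 := fr_pos hv₂
  have a3 := fr_pos (neg_ne_zero.mpr hh₁)
  have a4 := fr_pos (neg_ne_zero.mpr hh₂)
  have e1 := fr_neg_triple (a := c) (b := v₁) (c := v₂) (by linarith) hx.le
  have e2 := fr_neg_triple (a := -c) (b := -h₁) (c := -h₂) (by linarith) hy.le
  have f2 : -(-c + -h₁ + -h₂) = c + h₁ + h₂ := by ring
  rw [f2] at e2
  have z3 : -(c + v₁ + v₂) ≠ 0 := by
    intro h
    rw [h, fr_zero] at e1
    linarith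
  have z6 : c + h₁ + h₂ ≠ 0 := by
    intro h
    rw [h, fr_zero] at e2
    linarith
  have hcard : (0 : ℚ) < Fintype.card (ZMod n)ˣ := by exact_mod_cast Fintype.card_pos
  have hT : ∀ u : (ZMod n)ˣ, T c v₁ v₂ h₁ h₂ (u : ZMod n) ≤ 1 := fun u =>
    type_of' (unit_mul_ne u hc) (unit_mul_ne u hv₁) (unit_mul_ne u hv₂) (unit_mul_ne u hh₁)
      (unit_mul_ne u hh₂) (hcon u) (by
        have := hcon (-u)
        simpa only [Units.val_neg] using this)
  have hsum : S v₁ + S v₂ + S (-(c + v₁ + v₂)) + S h₁ + S h₂ + S (c + h₁ + h₂) ≤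
      Fintype.card (ZMod n)ˣ := by
    have h1 : S v₁ + S v₂ + S (-(c + v₁ + v₂)) + S h₁ + S h₂ + S (c + h₁ + h₂) =
        ∑ u : (ZMod n)ˣ, T c v₁ v₂ h₁ h₂ (u : ZMod n) := by
      unfold S T N
      simp only [Finset.sum_add_distrib]
    rw [h1]
    have h2 := Finset.sum_le_sum (fun u (_ : u ∈ (Finset.univ : Finset (ZMod n)ˣ)) => hT u)
    rw [Finset.sum_const, Finset.card_univ, nsmul_eq_mul, mul_one] at h2
    exact h2
  obtain ⟨b1, b1'⟩ := avg_main hv₁
  obtain ⟨b2, b2'⟩ := avg_main hv₂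
  obtain ⟨b3, b3'⟩ := avg_main z3
  obtain ⟨b4, b4'⟩ := avg_main hh₁
  obtain ⟨b5, b5'⟩ := avg_main hh₂
  obtain ⟨b6, b6'⟩ := avg_main z6
  have g1 : 6 * v₁ = 0 := by
    by_contra h
    linarith [b1' h]
  have g2 : 6 * v₂ = 0 := by
    by_contra h
    linarith [b2' h]
  have g3 : 6 * -(c + v₁ + v₂) = 0 := by
    by_contra h
    linarith [b3' h]
  have g4 : 6 * h₁ = 0 := by
    by_contra h
    linarith [b4' h]
  have g5 : 6 * h₂ = 0 := by
    by_contra h
    linarith [b5' h]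
  have g6 : 6 * (c + h₁ + h₂) = 0 := by
    by_contra h
    linarith [b6' h]
  have k1 := fr_ge_sixth hv₁ g1
  have k2 := fr_ge_sixth hv₂ g2
  have k3 := fr_ge_sixth z3 g3
  have k4 := fr_ge_sixth (neg_ne_zero.mpr hh₁) (by rw [mul_neg, g4, neg_zero])
  have k5 := fr_ge_sixth (neg_ne_zero.mpr hh₂) (by rw [mul_neg, g5, neg_zero])
  have k6 := fr_ge_sixth z6 g6
  have e0 := fr_neg_of_ne hc
  have e4 := fr_neg_of_ne hh₁
  have e5 := fr_neg_of_ne hh₂
  exact ⟨by linarith, by linarith, by linarith⟩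

end star

section main

variable {ι : Type} [Fintype ι] [DecidableEq ι] {n : ℕ} [NeZero n]

/-- remove one given index -/
theorem remove_at {s : Finset ι} {w : ι → ℕ} {v : ι} (hv : v ∈ s) (hv0 : w v ≠ 0) :
    ∃ w' : ι → ℕ, (∀ i, w i = w' i + if i = v then 1 else 0) ∧
      ∑ i ∈ s, w i = ∑ i ∈ s, w' i + 1 ∧
      ∀ g : ι → ℚ, ∑ i ∈ s, (w i : ℚ) * g i = ∑ i ∈ s, (w' i : ℚ) * g i + g v := by
  have h0 : ∀ i, w i = (w i - if i = v then 1 else 0) + if i = v then 1 else 0 := by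
    intro i
    by_cases hi : i = v
    · subst hi
      simp only [if_true]
      omega
    · simp [hi]
  refine ⟨fun i => w i - if i = v then 1 else 0, h0, ?_, ?_⟩
  · have h1 : ∑ i ∈ s, w i = ∑ i ∈ s, ((w i - if i = v then 1 else 0) + if i = v then 1 else 0) :=
      Finset.sum_congr rfl fun i _ => h0 i
    rw [h1, Finset.sum_add_distrib, Finset.sum_ite_eq' s v (fun _ => 1), if_pos hv]
  · intro g
    have h1 : g v = ∑ i ∈ s, if i = v then g i else 0 := by
      rw [Finset.sum_ite_eq' s v g, if_pos hv]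
    rw [h1, ← Finset.sum_add_distrib]
    apply Finset.sum_congr rfl
    intro i _
    have h2 : (w i : ℚ) = ((w i - if i = v then 1 else 0 : ℕ) : ℚ) + if i = v then 1 else 0 := by
      exact_mod_cast h0 i
    rw [h2, add_mul]
    by_cases hi : i = v
    · simp [hi]
    · simp [hi]

theorem exists_pair_at {s : Finset ι} {w : ι → ℕ} {r : ι → ℚ} {σ : ℚ} (h2 : 2 ≤ ∑ i ∈ s, w i)
    (hr : ∀ i ∈ s, 0 < r i) (hle : ∑ i ∈ s, (w i : ℚ) * r i ≤ σ)
    (hlt : ∑ i ∈ s, w i = 2 → ∑ i ∈ s, (w i : ℚ) * r i < σ) {v₁ : ι} (hv₁ : v₁ ∈ s)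
    (hw1 : w v₁ ≠ 0) :
    ∃ v₂ ∈ s, r v₁ + r v₂ < σ ∧
      ∀ g : ι → ℚ, (∀ i, 0 ≤ g i) → g v₁ + g v₂ ≤ ∑ i ∈ s, (w i : ℚ) * g i := by
  obtain ⟨w₁, hw₁, hs₁, hg₁⟩ := remove_at (s := s) (w := w) hv₁ hw1
  obtain ⟨v₂, hv₂, w₂, hw₂, hs₂, hg₂⟩ := exists_remove (s := s) (w := w₁) (by omega)
  have hpos : ∀ g : ι → ℚ, (∀ i ∈ s, 0 ≤ g i) → 0 ≤ ∑ i ∈ s, (w₂ i : ℚ) * g i := by
    intro g hg
    exact Finset.sum_nonneg fun i hi => mul_nonneg (Nat.cast_nonneg _) (hg i hi)
  refine ⟨v₂, hv₂, ?_, ?_⟩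
  · by_cases h3 : ∑ i ∈ s, w i = 2
    · have h4 := hlt h3
      rw [hg₁, hg₂] at h4
      have := hpos r (fun i hi => (hr i hi).le)
      linarith
    · obtain ⟨v₃, hv₃, w₃, hw₃, hs₃, hg₃⟩ := exists_remove (s := s) (w := w₂) (by omega)
      rw [hg₁, hg₂, hg₃] at hle
      have h5 : 0 ≤ ∑ i ∈ s, (w₃ i : ℚ) * r i :=
        Finset.sum_nonneg fun i hi => mul_nonneg (Nat.cast_nonneg _) (hr i hi).le
      have := hr v₃ hv₃
      linarith
  · intro g hg
    rw [hg₁, hg₂]
    have := hpos g (fun i _ => hg i)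
    linarith

/-- the case of order six -/
def Exc (a b : ι → ℕ) (c : ι → ZMod n) : Prop :=
  ∃ i₀, a i₀ = 1 ∧ b i₀ = 1 ∧ fr (c i₀) = 1 / 2 ∧
    (∀ i, i ≠ i₀ → c i ≠ 0 → (a i ≠ 0 → b i = 0 ∧ fr (c i) = 1 / 6) ∧
      (b i ≠ 0 → a i = 0 ∧ fr (c i) = 5 / 6)) ∧
    ∑ i ∈ (univ.filter (fun i => c i ≠ 0)).erase i₀, a i ≤ 3 ∧
    ∑ i ∈ (univ.filter (fun i => c i ≠ 0)).erase i₀, b i ≤ 3

variable {a b t : ι → ℕ} {c : ι → ZMod n}

theorem typeI_units (hat : ∀ i, a i ≤ t i) (hbt : ∀ i, b i ≤ t i)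
    (H : ∀ u : (ZMod n)ˣ, 1 < L a c (u : ZMod n) → 1 < L b c (u : ZMod n) → L t c (u : ZMod n) ≤ 2)
    (hA : 4 ≤ brn a c) (hB : 4 ≤ brn b c) (hx : L a c 1 ≤ 1) (hy : L b c (-1) ≤ 1) :
    (∀ i, c i ≠ 0 → a i = 0 ∨ b i = 0) ∨ Exc a b c := by
  set s : Finset ι := univ.filter (fun i => c i ≠ 0) with hs
  obtain ⟨hx2, hx3⟩ := big_neg hA hx
  have hB' : 4 ≤ brn b (fun i => -(c i)) := by rw [brn_neg]; exact hB
  obtain ⟨hy2, hy3⟩ := big_neg hB' (by rw [L_neg]; exact hy)
  rw [L_neg, neg_neg] at hy2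
  have hyfil : (univ.filter (fun i => -(c i) ≠ 0)) = s := by
    rw [hs]
    congr 1
    funext i
    simp
  rw [hyfil, L_neg] at hy3
  rw [← hs] at hx3
  have hA3 : 3 ≤ ∑ i ∈ s, a i := by
    unfold brn at hA
    rw [← hs] at hA
    split_ifs at hA <;> omega
  have hB3 : 3 ≤ ∑ i ∈ s, b i := by
    unfold brn at hB
    rw [← hs] at hB
    split_ifs at hB <;> omega
  by_cases hmix : ∀ i, c i ≠ 0 → a i = 0 ∨ b i = 0
  · exact Or.inl hmix
  · right
    push Not at hmix
    obtain ⟨i₀, hi₀, ha₀, hb₀⟩ := hmix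
    have hi₀s : i₀ ∈ s := by rw [hs, mem_filter]; exact ⟨mem_univ _, hi₀⟩
    -- remove `i₀` once from both weights
    obtain ⟨a', haa, hsa, hga⟩ := remove_at (s := s) (w := a) hi₀s ha₀
    obtain ⟨b', hbb, hsb, hgb⟩ := remove_at (s := s) (w := b) hi₀s hb₀
    have hfpos : ∀ i ∈ s, 0 < fr (c i) := fun i hi => fr_pos (mem_filter.mp hi).2
    have hfpos' : ∀ i ∈ s, 0 < fr (-(c i)) :=
      fun i hi => fr_pos (neg_ne_zero.mpr (mem_filter.mp hi).2)
    have hfneg : ∀ i ∈ s, fr (-(c i)) = 1 - fr (c i) :=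
      fun i hi => fr_neg_of_ne (mem_filter.mp hi).2
    have hx' : ∑ i ∈ s, (a' i : ℚ) * fr (c i) + fr (c i₀) = L a c 1 := by
      rw [← hga (fun i => fr (c i)), L_eq_filter]
      simp only [one_mul]
      rfl
    have hy' : ∑ i ∈ s, (b' i : ℚ) * fr (-(c i)) + fr (-(c i₀)) = L b c (-1) := by
      rw [← hgb (fun i => fr (-(c i))), L_eq_filter]
      simp only [neg_mul, one_mul]
      rfl
    have hf₀ := hfneg i₀ hi₀s
    -- at most one of the new weights is positive
    have hex : ∀ i ∈ s, a' i = 0 ∨ b' i = 0 := by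
      intro j hj
      by_contra hcon
      push Not at hcon
      obtain ⟨hj1, hj2⟩ := hcon
      have hj1' : (1 : ℚ) ≤ a' j := by exact_mod_cast Nat.one_le_iff_ne_zero.mpr hj1
      have hj2' : (1 : ℚ) ≤ b' j := by exact_mod_cast Nat.one_le_iff_ne_zero.mpr hj2
      have htot : ∑ i ∈ s, ((a' i : ℚ) * fr (c i) + (b' i : ℚ) * fr (-(c i))) ≤ 1 := by
        rw [Finset.sum_add_distrib]
        linarith
      rw [← Finset.add_sum_erase s _ hj] at htot
      have hrest : 0 ≤ ∑ i ∈ s.erase j, ((a' i : ℚ) * fr (c i) + (b' i : ℚ) * fr (-(c i))) := by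
        apply Finset.sum_nonneg
        intro i _
        exact add_nonneg (mul_nonneg (Nat.cast_nonneg _) (fr_nonneg _))
          (mul_nonneg (Nat.cast_nonneg _) (fr_nonneg _))
      have hfj := hfneg j hj
      have hpj := hfpos j hj
      have hpj' := hfpos' j hj
      have haj : (a' j : ℚ) = 1 := by
        by_contra hne
        have h1 : (2 : ℚ) ≤ a' j := by
          have h2 : a' j ≠ 1 := by
            intro h
            apply hne
            rw [h]; norm_num
          have : 2 ≤ a' j := by omega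
          exact_mod_cast this
        nlinarith
      have hrest0 : ∑ i ∈ s.erase j, (a' i : ℚ) * fr (c i) ≤ 0 := by
        rw [Finset.sum_add_distrib] at htot
        have h1 : 0 ≤ ∑ i ∈ s.erase j, (b' i : ℚ) * fr (-(c i)) :=
          Finset.sum_nonneg fun i _ => mul_nonneg (Nat.cast_nonneg _) (fr_nonneg _)
        nlinarith
      have hz : ∑ i ∈ s.erase j, a' i = 0 := by
        rw [Finset.sum_eq_zero_iff]
        intro i hi
        by_contra hne
        have hi1 : (1 : ℚ) ≤ a' i := by exact_mod_cast Nat.one_le_iff_ne_zero.mpr hne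
        have hpi := hfpos i (Finset.mem_of_mem_erase hi)
        have h1 := Finset.single_le_sum (f := fun i => (a' i : ℚ) * fr (c i))
          (fun i _ => mul_nonneg (Nat.cast_nonneg _) (fr_nonneg _)) hi
        nlinarith
      have h2 := Finset.add_sum_erase s a' hj
      have h3 : a' j = 1 := by exact_mod_cast haj
      omega
    have ht : ∀ g : ι → ℚ, (∀ i, 0 ≤ g i) →
        ∑ i ∈ s, (a' i : ℚ) * g i + ∑ i ∈ s, (b' i : ℚ) * g i + g i₀ ≤
          ∑ i ∈ s, (t i : ℚ) * g i := by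
      intro g hg
      have h1 : g i₀ = ∑ i ∈ s, if i = i₀ then g i else 0 := by
        rw [Finset.sum_ite_eq' s i₀ g, if_pos hi₀s]
      rw [h1, ← Finset.sum_add_distrib, ← Finset.sum_add_distrib]
      apply Finset.sum_le_sum
      intro i hi
      have h2 : a' i + b' i + (if i = i₀ then 1 else 0) ≤ t i := by
        have h3 := hat i
        have h4 := hbt i
        have h5 := haa i
        have h6 := hbb i
        rcases hex i hi with h | h <;> omega
      have h3 : ((a' i : ℚ) + b' i + (if i = i₀ then 1 else 0)) ≤ t i := by exact_mod_cast h2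
      have h4 := mul_le_mul_of_nonneg_right h3 (hg i)
      refine le_trans (le_of_eq ?_) h4
      by_cases hi : i = i₀
      · simp [hi]; ring
      · simp [hi]; ring
    -- the five residues
    have five : ∀ v₁ ∈ s, a' v₁ ≠ 0 → ∀ h₁ ∈ s, b' h₁ ≠ 0 →
        fr (c i₀) = 1 / 2 ∧ fr (c v₁) = 1 / 6 ∧ fr (c h₁) = 5 / 6 := by
      intro v₁ hv₁ hv1 h₁ hh₁ hh1
      obtain ⟨v₂, hv₂, hvlt, hvg⟩ := exists_pair_at (s := s) (w := a') (r := fun i => fr (c i))
        (σ := 1 - fr (c i₀)) (by omega) hfpos (by linarith) (by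
          intro h
          have := hx3 (by omega)
          linarith) hv₁ hv1
      obtain ⟨h₂, hh₂, hhlt, hhg⟩ := exists_pair_at (s := s) (w := b')
        (r := fun i => fr (-(c i))) (σ := 1 - fr (-(c i₀))) (by omega) hfpos' (by linarith) (by
          intro h
          have := hy3 (by omega)
          linarith) hh₁ hh1
      refine star_units (c := c i₀) (v₁ := c v₁) (v₂ := c v₂) (h₁ := c h₁)
        (h₂ := c h₂) hi₀ (mem_filter.mp hv₁).2 (mem_filter.mp hv₂).2 (mem_filter.mp hh₁).2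
        (mem_filter.mp hh₂).2 (by linarith) (by linarith) ?_
      intro u hm1 hm2
      have g0 : ∀ i, 0 ≤ fr ((u : ZMod n) * c i) := fun i => fr_nonneg _
      have k1 := hvg (fun i => fr ((u : ZMod n) * c i)) g0
      have k2 := hhg (fun i => fr ((u : ZMod n) * c i)) g0
      have k3 := hga (fun i => fr ((u : ZMod n) * c i))
      have k4 := hgb (fun i => fr ((u : ZMod n) * c i))
      have k5 := ht (fun i => fr ((u : ZMod n) * c i)) g0
      have l1 := L_eq_filter a c (u : ZMod n)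
      have l2 := L_eq_filter b c (u : ZMod n)
      have l3 := L_eq_filter t c (u : ZMod n)
      rw [← hs] at l1 l2 l3
      have := H u (by linarith) (by linarith)
      linarith
    obtain ⟨v, hv, hv0⟩ := Finset.exists_ne_zero_of_sum_ne_zero (s := s) (f := a') (by omega)
    obtain ⟨h, hh, hh0⟩ := Finset.exists_ne_zero_of_sum_ne_zero (s := s) (f := b') (by omega)
    have hhalf := (five v hv hv0 h hh hh0).1
    have a0 : a' i₀ = 0 := by
      by_contra hne
      have := (five i₀ hi₀s hne h hh hh0).2.1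
      rw [hhalf] at this
      norm_num at this
    have b0 : b' i₀ = 0 := by
      by_contra hne
      have := (five v hv hv0 i₀ hi₀s hne).2.2
      rw [hhalf] at this
      norm_num at this
    have a1 : a i₀ = 1 := by rw [haa i₀, a0, if_pos rfl]
    have b1 : b i₀ = 1 := by rw [hbb i₀, b0, if_pos rfl]
    have hstr : ∀ i, i ≠ i₀ → c i ≠ 0 → (a i ≠ 0 → b i = 0 ∧ fr (c i) = 1 / 6) ∧
        (b i ≠ 0 → a i = 0 ∧ fr (c i) = 5 / 6) := by
      intro i hi hci
      have his : i ∈ s := by rw [hs, mem_filter]; exact ⟨mem_univ _, hci⟩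
      have e1 := haa i
      have e2 := hbb i
      rw [if_neg hi, add_zero] at e1 e2
      constructor
      · intro h0
        rw [e1] at h0
        refine ⟨?_, (five i his h0 h hh hh0).2.1⟩
        rw [e2]
        exact (hex i his).resolve_left h0
      · intro h0
        rw [e2] at h0
        refine ⟨?_, (five v hv hv0 i his h0).2.2⟩
        rw [e1]
        exact (hex i his).resolve_right h0
    refine ⟨i₀, a1, b1, hhalf, hstr, ?_, ?_⟩
    · rw [← hs]
      have h1 : ∑ i ∈ s, (a' i : ℚ) * (1 / 6) ≤ 1 / 2 := by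
        have h2 : ∑ i ∈ s, (a' i : ℚ) * (1 / 6) = ∑ i ∈ s, (a' i : ℚ) * fr (c i) := by
          apply Finset.sum_congr rfl
          intro i hi
          by_cases h0 : a' i = 0
          · rw [h0]; simp
          · rw [(five i hi h0 h hh hh0).2.1]
        rw [h2]
        linarith
      rw [← Finset.sum_mul] at h1
      have h3 : ((∑ i ∈ s, a' i : ℕ) : ℚ) ≤ 3 := by
        push_cast
        linarith
      have h4 : ∑ i ∈ s, a' i ≤ 3 := by exact_mod_cast h3
      have h5 := Finset.add_sum_erase s a hi₀s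
      omega
    · rw [← hs]
      have h1 : ∑ i ∈ s, (b' i : ℚ) * (1 / 6) ≤ 1 / 2 := by
        have h2 : ∑ i ∈ s, (b' i : ℚ) * (1 / 6) = ∑ i ∈ s, (b' i : ℚ) * fr (-(c i)) := by
          apply Finset.sum_congr rfl
          intro i hi
          by_cases h0 : b' i = 0
          · rw [h0]; simp
          · rw [hfneg i hi, (five v hv hv0 i hi h0).2.2]
            norm_num
        rw [h2]
        linarith
      rw [← Finset.sum_mul] at h1
      have h3 : ((∑ i ∈ s, b' i : ℕ) : ℚ) ≤ 3 := by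
        push_cast
        linarith
      have h4 : ∑ i ∈ s, b' i ≤ 3 := by exact_mod_cast h3
      have h5 := Finset.add_sum_erase s b hi₀s
      omega

/-- **the numerical theorem for the units** -/
theorem numeric_units (hat : ∀ i, a i ≤ t i) (hbt : ∀ i, b i ≤ t i)
    (H : ∀ u : (ZMod n)ˣ, 1 < L a c (u : ZMod n) → 1 < L b c (u : ZMod n) →
      L t c (u : ZMod n) ≤ 2) :
    brn a c ≤ 3 ∨ brn b c ≤ 3 ∨ (L t c 1 ≤ 2 ∧ L t c (-1) ≤ 2) ∨
      (∀ i, c i ≠ 0 → a i = 0 ∨ b i = 0) ∨ Exc a b c ∨ Exc a b (fun i => -(c i)) := by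
  by_cases hA : brn a c ≤ 3
  · exact Or.inl hA
  by_cases hB : brn b c ≤ 3
  · exact Or.inr (Or.inl hB)
  right; right
  push Not at hA hB
  have hA4 : 4 ≤ brn a c := hA
  have hB4 : 4 ≤ brn b c := hB
  have hAn : 4 ≤ brn a (fun i => -(c i)) := by rw [brn_neg]; exact hA4
  have hBn : 4 ≤ brn b (fun i => -(c i)) := by rw [brn_neg]; exact hB4
  have H1 := H 1
  have H2 := H (-1)
  simp only [Units.val_neg, Units.val_one] at H1 H2
  have Hn : ∀ u : (ZMod n)ˣ, 1 < L a (fun i => -(c i)) (u : ZMod n) →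
      1 < L b (fun i => -(c i)) (u : ZMod n) → L t (fun i => -(c i)) (u : ZMod n) ≤ 2 := by
    intro u
    rw [L_neg, L_neg, L_neg]
    have := H (-u)
    simpa only [Units.val_neg] using this
  -- the two mixed types
  have case1 : L a c 1 ≤ 1 → L b c (-1) ≤ 1 →
      (∀ i, c i ≠ 0 → a i = 0 ∨ b i = 0) ∨ Exc a b c ∨ Exc a b (fun i => -(c i)) := by
    intro h1 h2
    rcases typeI_units hat hbt H hA4 hB4 h1 h2 with h | h
    · exact Or.inl h
    · exact Or.inr (Or.inl h)
  have case2 : L a c (-1) ≤ 1 → L b c 1 ≤ 1 →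
      (∀ i, c i ≠ 0 → a i = 0 ∨ b i = 0) ∨ Exc a b c ∨ Exc a b (fun i => -(c i)) := by
    intro h1 h2
    rcases typeI_units hat hbt Hn hAn hBn (by rw [L_neg]; exact h1)
      (by rw [L_neg, neg_neg]; exact h2) with h | h
    · left
      intro i hi
      exact h i (neg_ne_zero.mpr hi)
    · exact Or.inr (Or.inr h)
  by_cases x1 : L a c 1 ≤ 1
  · right
    apply case1 x1
    have h1 := (big_neg hA4 x1).1
    have h2 := L_mono hat c (-1)
    by_contra h3
    push Not at h3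
    have := H2 (by linarith) h3
    linarith
  by_cases y1 : L b c 1 ≤ 1
  · right
    refine case2 ?_ y1
    have h1 := (big_neg hB4 y1).1
    have h2 := L_mono hbt c (-1)
    by_contra h3
    push Not at h3
    have := H2 h3 (by linarith)
    linarith
  push Not at x1 y1
  have w1 := H1 x1 y1
  by_cases x2 : L a c (-1) ≤ 1
  · exfalso
    have h0 : L a (fun i => -(c i)) 1 ≤ 1 := by rw [L_neg]; exact x2
    have h1 := (big_neg hAn h0).1
    rw [L_neg, neg_neg] at h1
    have h2 := L_mono hat c 1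
    linarith
  by_cases y2 : L b c (-1) ≤ 1
  · exfalso
    have h0 : L b (fun i => -(c i)) 1 ≤ 1 := by rw [L_neg]; exact y2
    have h1 := (big_neg hBn h0).1
    rw [L_neg, neg_neg] at h1
    have h2 := L_mono hbt c 1
    linarith
  push Not at x2 y2
  exact Or.inl ⟨w1, H2 x2 y2⟩

end main

end Pool.Agent.U68.BC
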